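import Pool.Agent.H65.HX.SStm

/-!
# Project HX, part sCTO: columns in the end zones
-/

set_option autoImplicit false
open Classical Finset

namespace Pool.Agent.H18.HX.Cto

open Pool.Agent.H39.HW (sm Av ln blk lab)
open Pool.Agent.H65.HX Pool.Agent.H65.HX.Sc

/-! ### numbers -/

theorem nonadj {η θ μ l K M J n N κ : ℝ} (hθ0 : 0 < θ) (hμ : 0 < μ) (hκ : 0 ≤ κ)
    (hl : l - μ ≤ κ * (θ * μ)) (k1 : |K * μ - 1 / 2| ≤ η) (m1 : |M * μ - 1| ≤ η)
    (j1 : J * μ ≤ η) (hN : 0 ≤ N) (hN1 : N ≤ M + J - K + n) :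
    N * (l - μ) ≤ (1 / 2 + 3 * η + n * μ) * (κ * θ) := by
  obtain ⟨k1a, k1b⟩ := abs_le.mp k1
  obtain ⟨m1a, m1b⟩ := abs_le.mp m1
  have h1 : N * (l - μ) ≤ N * (κ * (θ * μ)) := mul_le_mul_of_nonneg_left hl hN
  have h2 : N * (κ * (θ * μ)) ≤ (M + J - K + n) * (κ * (θ * μ)) :=
    mul_le_mul_of_nonneg_right hN1 (by positivity)
  have h3 : (M + J - K + n) * (κ * (θ * μ)) = ((M + J - K + n) * μ) * (κ * θ) := by ring
  have h4 : (M + J - K + n) * μ ≤ 1 / 2 + 3 * η + n * μ := by nlinarith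
  have h5 : ((M + J - K + n) * μ) * (κ * θ) ≤ (1 / 2 + 3 * η + n * μ) * (κ * θ) :=
    mul_le_mul_of_nonneg_right h4 (by positivity)
  linarith

theorem num1 {η θ μ a2 a3 K n X C c d : ℝ} (hη0 : 0 < η) (hη : η ≤ 1 / 10 ^ 5)
    (hθ0 : 0 < θ) (hμ : 0 < μ)
    (s2 : |a2 - μ - 3 / 20 * θ * μ| ≤ η * θ * μ) (s3 : |a3 - μ - 3 / 5 * θ * μ| ≤ η * θ * μ)
    (hX : X ≤ (1 / 2 + 3 * η + n * μ) * ((3 / 20 + η) * θ))
    (hn : 0 ≤ n) (hy : n * μ ≤ 1 / 2 + 2 * η)
    (hC : C = 0 ∨ C * a2 ≤ K * a3 - c - n * (a3 - a2) + d)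
    (hK : K * a3 - c ≤ (2 / 5 + η) * θ + a3) (ha3 : a3 ≤ η * θ) (hd : d ≤ η * θ) :
    X + C * a2 ≤ (19 / 40 + 1 / 1000) * θ := by
  obtain ⟨s2a, s2b⟩ := abs_le.mp s2
  obtain ⟨s3a, s3b⟩ := abs_le.mp s3
  have hθμ : 0 < θ * μ := by positivity
  have hy0 : 0 ≤ n * μ := by positivity
  rcases hC with h | h
  · have h1 : (1 / 2 + 3 * η + n * μ) * (3 / 20 + η) ≤ 19 / 40 + 1 / 1000 := by nlinarith
    have h2 := mul_le_mul_of_nonneg_right h1 hθ0.le
    rw [h, zero_mul, add_zero]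
    calc X ≤ _ := hX
      _ = (1 / 2 + 3 * η + n * μ) * (3 / 20 + η) * θ := by ring
      _ ≤ _ := h2
  · have h1 : (9 / 20 - 2 * η) * (θ * μ) ≤ a3 - a2 := by linarith
    have h2 : n * ((9 / 20 - 2 * η) * (θ * μ)) ≤ n * (a3 - a2) := mul_le_mul_of_nonneg_left h1 hn
    have h3 : (1 / 2 + 3 * η + n * μ) * (3 / 20 + η) + (2 / 5 + η) + 2 * η -
        n * μ * (9 / 20 - 2 * η) ≤ 19 / 40 + 1 / 1000 := by nlinarith
    have h4 := mul_le_mul_of_nonneg_right h3 hθ0.le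
    have h5 : ((1 / 2 + 3 * η + n * μ) * (3 / 20 + η) + (2 / 5 + η) + 2 * η -
        n * μ * (9 / 20 - 2 * η)) * θ = (1 / 2 + 3 * η + n * μ) * ((3 / 20 + η) * θ) +
        (2 / 5 + η) * θ + 2 * (η * θ) - n * ((9 / 20 - 2 * η) * (θ * μ)) := by ring
    rw [h5] at h4
    linarith

theorem cl_le {η θ μ a2 l C b : ℝ} (hη0 : 0 < η) (hη : η ≤ 1 / 10 ^ 5)
    (hθ0 : 0 < θ) (hθ : θ ≤ η) (hμ : 0 < μ)
    (s2 : |a2 - μ - 3 / 20 * θ * μ| ≤ η * θ * μ) (hl : l ≤ μ + (1 / 4 + 2 * η) * (θ * μ))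
    (hC : 0 ≤ C) (h : C * a2 ≤ b) (hb : b ≤ θ) : C * l ≤ b + η * θ := by
  obtain ⟨s2a, s2b⟩ := abs_le.mp s2
  have hθμ : 0 < θ * μ := by positivity
  have h1 : μ ≤ a2 := by nlinarith
  have h2 : l ≤ (1 + θ) * a2 := by nlinarith
  have h3 : C * l ≤ C * ((1 + θ) * a2) := mul_le_mul_of_nonneg_left h2 hC
  have h4 : C * a2 * θ ≤ θ * θ := mul_le_mul_of_nonneg_right (h.trans hb) hθ0.le
  have h5 : θ * θ ≤ η * θ := mul_le_mul_of_nonneg_right hθ hθ0.le
  nlinarith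

theorem num2 {η θ μ a1 a2 a3 K n m X C c d l : ℝ} (hη0 : 0 < η) (hη : η ≤ 1 / 10 ^ 5)
    (hθ0 : 0 < θ) (hθ : θ ≤ η) (hμ : 0 < μ)
    (s1 : |a1 - μ - 1 / 4 * θ * μ| ≤ η * θ * μ)
    (s2 : |a2 - μ - 3 / 20 * θ * μ| ≤ η * θ * μ) (s3 : |a3 - μ - 3 / 5 * θ * μ| ≤ η * θ * μ)
    (hX : X ≤ (1 / 2 + 3 * η + n * μ) * ((1 / 4 + 2 * η) * θ))
    (hl : l ≤ μ + (1 / 4 + 2 * η) * (θ * μ)) (hC0 : 0 ≤ C)
    (hmn : m ≤ n) (hm : 1 / 4 - 2 * η ≤ m * μ) (hm1 : m * μ ≤ 1) (hy : n * μ ≤ 1 / 2 + 2 * η)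
    (hC : C = 0 ∨ C * a2 ≤ K * a3 - c - n * (a3 - a1) - m * (a1 - a2) + d)
    (hK : K * a3 - c ≤ (2 / 5 + η) * θ + a3) (ha3 : a3 ≤ η * θ) (hd : d ≤ η * θ) :
    X + C * l ≤ (19 / 40 + 1 / 1000) * θ := by
  obtain ⟨s1a, s1b⟩ := abs_le.mp s1
  obtain ⟨s2a, s2b⟩ := abs_le.mp s2
  obtain ⟨s3a, s3b⟩ := abs_le.mp s3
  have hθμ : 0 < θ * μ := by positivity
  have hm0 : 0 ≤ m := by
    by_contra hc
    push Not at hc
    nlinarith
  have hn : 0 ≤ n := hm0.trans hmn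
  have hy0 : m * μ ≤ n * μ := mul_le_mul_of_nonneg_right hmn hμ.le
  rcases hC with h | h
  · have h1 : (1 / 2 + 3 * η + n * μ) * (1 / 4 + 2 * η) ≤ 19 / 40 + 1 / 1000 := by nlinarith
    have h2 := mul_le_mul_of_nonneg_right h1 hθ0.le
    rw [h, zero_mul, add_zero]
    calc X ≤ _ := hX
      _ = (1 / 2 + 3 * η + n * μ) * (1 / 4 + 2 * η) * θ := by ring
      _ ≤ _ := h2
  · have h1 : (7 / 20 - 2 * η) * (θ * μ) ≤ a3 - a1 := by linarith
    have h1' : (1 / 10 - 2 * η) * (θ * μ) ≤ a1 - a2 := by linarith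
    have h2 : n * ((7 / 20 - 2 * η) * (θ * μ)) ≤ n * (a3 - a1) := mul_le_mul_of_nonneg_left h1 hn
    have h2' : m * ((1 / 10 - 2 * η) * (θ * μ)) ≤ m * (a1 - a2) :=
      mul_le_mul_of_nonneg_left h1' hm0
    have hb : C * a2 ≤ (2 / 5 + η) * θ + 2 * (η * θ) - n * ((7 / 20 - 2 * η) * (θ * μ)) -
        m * ((1 / 10 - 2 * η) * (θ * μ)) := by linarith
    have hb2 : (2 / 5 + η) * θ + 2 * (η * θ) - n * ((7 / 20 - 2 * η) * (θ * μ)) -
        m * ((1 / 10 - 2 * η) * (θ * μ)) ≤ θ := by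
      have e1 : 0 ≤ n * ((7 / 20 - 2 * η) * (θ * μ)) :=
        mul_nonneg hn (mul_nonneg (by linarith) hθμ.le)
      have e2 : 0 ≤ m * ((1 / 10 - 2 * η) * (θ * μ)) :=
        mul_nonneg hm0 (mul_nonneg (by linarith) hθμ.le)
      nlinarith
    have hcl := cl_le hη0 hη hθ0 hθ hμ s2 hl hC0 hb hb2
    have h3 : (1 / 2 + 3 * η + n * μ) * (1 / 4 + 2 * η) + (2 / 5 + η) + 3 * η -
        n * μ * (7 / 20 - 2 * η) - m * μ * (1 / 10 - 2 * η) ≤ 19 / 40 + 1 / 1000 := by nlinarith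
    have h4 := mul_le_mul_of_nonneg_right h3 hθ0.le
    have h5 : ((1 / 2 + 3 * η + n * μ) * (1 / 4 + 2 * η) + (2 / 5 + η) + 3 * η -
        n * μ * (7 / 20 - 2 * η) - m * μ * (1 / 10 - 2 * η)) * θ =
        (1 / 2 + 3 * η + n * μ) * ((1 / 4 + 2 * η) * θ) +
        ((2 / 5 + η) * θ + 2 * (η * θ) - n * ((7 / 20 - 2 * η) * (θ * μ)) -
        m * ((1 / 10 - 2 * η) * (θ * μ)) + η * θ) := by ring
    rw [h5] at h4
    exact (add_le_add hX hcl).trans h4

theorem num3 {η θ μ a2 n X C d l : ℝ} (hη0 : 0 < η) (hη : η ≤ 1 / 10 ^ 5)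
    (hθ0 : 0 < θ) (hθ : θ ≤ η) (hμ : 0 < μ)
    (s2 : |a2 - μ - 3 / 20 * θ * μ| ≤ η * θ * μ)
    (hX : X ≤ (1 / 2 + 3 * η + n * μ) * ((1 / 4 + 2 * η) * θ))
    (hl : l ≤ μ + (1 / 4 + 2 * η) * (θ * μ)) (hC0 : 0 ≤ C) (hn : 0 ≤ n)
    (hy : n * μ ≤ 1 / 2 + 2 * η)
    (hC : C = 0 ∨ C * a2 ≤ (1 / 5 + η) * θ + d) (hd : d ≤ η * θ) :
    X + C * l ≤ (19 / 40 + 1 / 1000) * θ := by
  have hb : C * a2 ≤ (1 / 5 + 2 * η) * θ := by
    rcases hC with h | h
    · rw [h, zero_mul]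
      positivity
    · linarith
  have hcl := cl_le hη0 hη hθ0 hθ hμ s2 hl hC0 hb (by nlinarith)
  have hy0 : 0 ≤ n * μ := by positivity
  have h1 : (1 / 2 + 3 * η + n * μ) * (1 / 4 + 2 * η) + (1 / 5 + 2 * η) + η ≤
      19 / 40 + 1 / 1000 := by nlinarith
  have h2 := mul_le_mul_of_nonneg_right h1 hθ0.le
  have h5 : ((1 / 2 + 3 * η + n * μ) * (1 / 4 + 2 * η) + (1 / 5 + 2 * η) + η) * θ =
      (1 / 2 + 3 * η + n * μ) * ((1 / 4 + 2 * η) * θ) + ((1 / 5 + 2 * η) * θ + η * θ) := by ring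
  rw [h5] at h2
  linarith

/-! ### the function `st` -/

section St

variable {x : Prm}

theorem Kh_lt (hx : Par x) : x.Kh < x.b0 := by
  have h1 := hx.KhK
  have h2 := hx.J1
  simp only [Prm.b0]
  omega

theorem B_eq (x : Prm) : x.B = x.b1 + x.b0 := by
  simp only [Prm.B, Prm.b1, Prm.b0]
  omega

theorem b1_eq (x : Prm) : x.b1 = x.b0 + x.M := rfl

theorem st_a {i : ℕ} (h : i ≤ x.Kh) : (x.st i : ℝ) = i * x.w1 := by
  unfold Prm.st
  rw [if_pos h]
  push_cast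
  rfl

theorem st_b {i : ℕ} (h : x.Kh ≤ i) (h' : i ≤ x.b0) :
    (x.st i : ℝ) = x.Kh * x.w1 + ((i : ℝ) - x.Kh) * x.w2 := by
  unfold Prm.st
  by_cases h1 : i ≤ x.Kh
  · have : i = x.Kh := le_antisymm h1 h
    subst this
    rw [if_pos h1]
    push_cast
    ring
  · rw [if_neg h1, if_pos h']
    push_cast [Nat.cast_sub h]
    ring

theorem Z0_real (hx : Par x) : (x.Z0 : ℝ) = x.Kh * x.w1 + ((x.b0 : ℝ) - x.Kh) * x.w2 := by
  have := (Kh_lt hx).le
  unfold Prm.Z0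
  push_cast [Nat.cast_sub this]
  ring

theorem st_c (hx : Par x) {i : ℕ} (h : x.b0 ≤ i) (h' : i ≤ x.b1) :
    (x.st i : ℝ) = x.Z0 + ((i : ℝ) - x.b0) * x.v := by
  have hk := Kh_lt hx
  by_cases h2 : i ≤ x.b0
  · have : i = x.b0 := le_antisymm h2 h
    subst this
    rw [st_b hk.le le_rfl, Z0_real hx]
    ring
  · unfold Prm.st
    rw [if_neg (by omega), if_neg h2, if_pos h']
    push_cast [Nat.cast_sub h]
    ring

theorem st_d (hx : Par x) {i : ℕ} (h : x.b1 ≤ i) (h' : i + x.Kh ≤ x.B) :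
    (x.st i : ℝ) = x.Z0 + x.M * x.v + ((i : ℝ) - x.b1) * x.w2 := by
  have hk := Kh_lt hx
  have hb := b1_eq x
  by_cases h2 : i ≤ x.b1
  · have : i = x.b1 := le_antisymm h2 h
    subst this
    rw [st_c hx (by omega) le_rfl, hb]
    push_cast
    ring
  · unfold Prm.st
    rw [if_neg (by omega), if_neg (by omega), if_neg h2, if_pos (by omega)]
    push_cast [Nat.cast_sub h]
    ring

theorem st_e (hx : Par x) {i : ℕ} (h : x.B ≤ i + x.Kh) (h' : i < x.B) :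
    (x.st i : ℝ) = x.Z0 + x.M * x.v + ((x.b0 : ℝ) - x.Kh) * x.w2 +
      ((i : ℝ) - (x.B - x.Kh)) * x.w1 := by
  have hk := Kh_lt hx
  have hb := b1_eq x
  have hB := B_eq x
  have hBr : (x.B : ℝ) = x.b1 + x.b0 := by exact_mod_cast hB
  by_cases h2 : i ≤ x.B - x.Kh
  · have h3 : i + x.Kh = x.B := by omega
    have h4 : (i : ℝ) = x.B - x.Kh := by
      have : (i : ℝ) + x.Kh = x.B := by exact_mod_cast h3
      linarith
    rw [st_d hx (by omega) (by omega), h4, hBr]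
    ring
  · unfold Prm.st
    rw [if_neg (by omega), if_neg (by omega), if_neg (by omega), if_neg h2, if_pos h']
    have h3 : x.Kh ≤ x.b0 := hk.le
    have h4 : x.B - x.Kh ≤ i := by omega
    have h5 : x.Kh ≤ x.B := by omega
    push_cast [Nat.cast_sub h3, Nat.cast_sub h4, Nat.cast_sub h5]
    ring

theorem st_grow (hx : Par x) (hBLK : S_BLK) {i j : ℕ} (hij : i ≤ j) (hj : j ≤ x.B) :
    (x.st i : ℝ) + ((j : ℝ) - i) * x.w2 ≤ x.st j := by
  obtain ⟨-, -, hmon, -, -, -, -, -, -, -, hln⟩ := hBLK x hx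
  induction j, hij using Nat.le_induction with
  | base => simp
  | succ j hij ih =>
    have h1 := ih (by omega)
    have h2 := (hln j (by omega)).1
    have h3 := hmon j
    have h4 : x.st j + x.w2 ≤ x.st (j + 1) := by
      unfold ln at h2
      omega
    have h5 : (x.st j : ℝ) + x.w2 ≤ x.st (j + 1) := by exact_mod_cast h4
    push_cast
    linarith

theorem st_mono (hx : Par x) (hBLK : S_BLK) {i j : ℕ} (hij : i ≤ j) : x.st i ≤ x.st j :=
  monotone_nat_of_le_succ (hBLK x hx).2.2.1 hij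

end St

/-! ### the sum -/

theorem eta_le {x : Prm} (hx : Par x) : x.η ≤ 1 / 10 ^ 5 := by
  have h1 := hx.V1
  have h2 := hx.V2
  have h3 : (1 : ℝ) ≤ x.L := by
    have : 1 ≤ x.L := by
      rw [hx.L1]
      have := hx.h1
      omega
    exact_mod_cast this
  have h4 : (1 : ℝ) ≤ x.h := by
    have : 1 ≤ x.h := by
      have := hx.h1
      omega
    exact_mod_cast this
  have h5 : (0 : ℝ) ≤ x.n0 * x.μ := mul_nonneg (Nat.cast_nonneg _) hx.m0.le
  have h6 : (1 : ℝ) ≤ x.L * x.h := one_le_mul_of_one_le_of_one_le h3 h4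
  have h7 : (x.n0 * x.μ : ℝ) ≤ (x.L * x.h) * (x.n0 * x.μ) := by nlinarith
  nlinarith

theorem aux {x : Prm} (hx : Par x) (hCLD : S_CLD) {β n : ℕ} (hn : n < x.b0)
    (hl1 : n + x.Kh < x.b0 → ln x.st β = x.w2) (hl2 : ln x.st β ≤ x.w1 + x.M)
    (hm : ((x.R.filter fun a => β ∈ x.cls a).filter fun a => ¬ x.adj a β).card + 2 * x.K ≤
      x.b1 + n)
    (A : ℝ)
    (hA1 : n + x.Kh < x.b0 → A = ((x.K : ℝ) - n) * x.v + n * x.w2)
    (hA2 : x.b0 ≤ n + x.Kh → n ≤ x.K → A = ((x.K : ℝ) - n) * x.v +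
      ((x.b0 : ℝ) - x.Kh) * x.w2 + ((n : ℝ) - ((x.b0 : ℝ) - x.Kh)) * x.w1)
    (hA3 : x.K < n → A ≤ x.Kh * x.w1 + ((x.K : ℝ) - x.Kh) * x.w2)
    (hadj : ((x.R.filter fun a => β ∈ x.cls a).filter fun a => ¬ ¬ x.adj a β).Nonempty →
      (((x.R.filter fun a => β ∈ x.cls a).filter fun a => ¬ ¬ x.adj a β).card : ℝ) * x.w2 +
        x.p ≤ A + 1) :
    ∑ a ∈ x.R.filter (fun a => β ∈ x.cls a), x.dem a β ≤ (19 / 40 + 1 / 1000) * x.θ := by
  set T := x.R.filter (fun a => β ∈ x.cls a) with hT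
  have hsplit := Finset.sum_filter_add_sum_filter_not T (fun a => ¬ x.adj a β)
    (fun a => x.dem a β)
  have h1 : ∑ a ∈ T.filter (fun a => ¬ x.adj a β), x.dem a β =
      ((T.filter fun a => ¬ x.adj a β).card : ℝ) * ((ln x.st β : ℝ) / x.D - x.μ) := by
    rw [Finset.sum_congr rfl (fun a ha => ?_), Finset.sum_const, nsmul_eq_mul]
    obtain ⟨haT, hna⟩ := Finset.mem_filter.mp ha
    obtain ⟨haR, hac⟩ := Finset.mem_filter.mp haT
    exact (hCLD x hx a haR).2.2.2.2.1 β hac hna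
  have h2 : ∑ a ∈ T.filter (fun a => ¬ ¬ x.adj a β), x.dem a β =
      ((T.filter fun a => ¬ ¬ x.adj a β).card : ℝ) * ((ln x.st β : ℝ) / x.D) := by
    rw [Finset.sum_congr rfl (fun a ha => ?_), Finset.sum_const, nsmul_eq_mul]
    obtain ⟨haT, hna⟩ := Finset.mem_filter.mp ha
    obtain ⟨haR, hac⟩ := Finset.mem_filter.mp haT
    exact (hCLD x hx a haR).2.2.2.1 β hac (not_not.mp hna)
  rw [← hsplit, h1, h2]
  have hD : (1 : ℝ) ≤ x.D := by exact_mod_cast hx.D1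
  have hD0 : (0 : ℝ) < x.D := by linarith
  have hη := eta_le hx
  have hη0 := hx.n1
  have hθ0 := hx.t0
  have hθ := hx.th
  have hμ := hx.m0
  have hθμ : 0 < x.θ * x.μ := mul_pos hθ0 hμ
  have hs1 := hx.s1
  have hs2 := hx.s2
  have hs3 := hx.s3
  obtain ⟨s1a, s1b⟩ := abs_le.mp hs1
  obtain ⟨s2a, s2b⟩ := abs_le.mp hs2
  obtain ⟨s3a, s3b⟩ := abs_le.mp hs3
  have hk1 := hx.k1
  have hm1 := hx.m1
  obtain ⟨k1a, k1b⟩ := abs_le.mp hk1
  obtain ⟨kha, khb⟩ := abs_le.mp hx.kh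
  have hMD : (x.M : ℝ) / x.D ≤ x.η * x.θ * x.μ := by
    rw [div_le_iff₀ hD0]
    have h := hx.D2
    have hMB : (x.M : ℝ) ≤ x.B := by
      have : x.M ≤ x.B := by simp only [Prm.B]; omega
      exact_mod_cast this
    have : (0 : ℝ) ≤ x.B := by positivity
    linarith
  have h1D : 1 / (x.D : ℝ) ≤ x.η * x.θ * x.μ := by
    rw [div_le_iff₀ hD0]
    have h := hx.D2
    have : (0 : ℝ) ≤ x.B := by positivity
    linarith
  have hμs : 10 ^ 6 * x.μ ≤ x.η * x.θ := by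
    have h := hx.u1
    have h3 : (1 : ℝ) ≤ x.L := by
      have : 1 ≤ x.L := by
        rw [hx.L1]
        have := hx.h1
        omega
      exact_mod_cast this
    have h4 : (1 : ℝ) ≤ (x.L : ℝ) ^ 4 := one_le_pow₀ h3
    have h5 : x.μ ≤ (x.L : ℝ) ^ 4 * x.μ := by nlinarith
    nlinarith
  have hd : 1 / (x.D : ℝ) ≤ x.η * x.θ := by
    have : x.η * x.θ * x.μ ≤ x.η * x.θ := by
      have h3 : 0 ≤ x.η * x.θ := by positivity
      have h4 : x.μ ≤ 1 := by nlinarith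
      nlinarith
    linarith
  have ha3 : (x.v : ℝ) / x.D ≤ x.η * x.θ := by
    have : x.θ * x.μ ≤ x.μ := by nlinarith
    have : x.η * x.θ * x.μ ≤ x.μ := by nlinarith
    linarith
  have hnr : (n : ℝ) ≤ x.K + x.J := by
    have : n ≤ x.K + x.J := hn.le
    exact_mod_cast this
  have hn0 : (0 : ℝ) ≤ n := Nat.cast_nonneg _
  have hy : (n : ℝ) * x.μ ≤ 1 / 2 + 2 * x.η := by
    have := mul_le_mul_of_nonneg_right hnr hμ.le
    have := hx.j1
    linarith
  have hKc : (x.K : ℝ) * (x.v / x.D) - x.p / x.D ≤ (2 / 5 + x.η) * x.θ + x.v / x.D := by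
    have hj := (abs_le.mp hx.j2).2
    have hg := hx.g3
    have hg0 := hx.g0
    have hg' : ((x.g : ℝ) - 1) * x.v + 1 ≤ x.p := by
      have h : ((x.g - 1 : ℕ) : ℝ) = (x.g : ℝ) - 1 := by
        rw [Nat.cast_sub hg0]
        norm_num
      rw [← h]
      exact_mod_cast hg.le
    have hg2 : (((x.g : ℝ) - 1) * x.v + 1) / x.D ≤ x.p / x.D :=
      div_le_div_of_nonneg_right hg' hD0.le
    have e1 : (((x.g : ℝ) - 1) * x.v + 1) / x.D = x.g * (x.v / x.D) - x.v / x.D + 1 / x.D := by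
      ring
    have : 0 ≤ 1 / (x.D : ℝ) := by positivity
    rw [e1] at hg2
    linarith
  have hN1 : (((T.filter fun a => ¬ x.adj a β).card : ℕ) : ℝ) ≤ (x.M : ℝ) + x.J - x.K + n := by
    have h : (((T.filter fun a => ¬ x.adj a β).card : ℕ) : ℝ) + 2 * x.K ≤ x.b1 + n := by
      exact_mod_cast hm
    have hb : (x.b1 : ℝ) = x.K + x.J + x.M := by
      simp only [Prm.b1]
      push_cast
      ring
    rw [hb] at h
    linarith
  have hb0 : (x.b0 : ℝ) = x.K + x.J := by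
    simp only [Prm.b0]
    push_cast
    ring
  have hKD : ∀ C : ℝ, C * x.w2 + x.p ≤ A + 1 →
      C * ((x.w2 : ℝ) / x.D) ≤ A / x.D - x.p / x.D + 1 / x.D := by
    intro C hC
    have := div_le_div_of_nonneg_right hC hD0.le
    calc C * ((x.w2 : ℝ) / x.D) = (C * x.w2 + x.p) / x.D - x.p / x.D := by ring
      _ ≤ (A + 1) / x.D - x.p / x.D := by linarith
      _ = _ := by ring
  have hC0 : (0 : ℝ) ≤ (((T.filter fun a => ¬ ¬ x.adj a β).card : ℕ) : ℝ) := Nat.cast_nonneg _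
  have hCdic : (((T.filter fun a => ¬ ¬ x.adj a β).card : ℕ) : ℝ) = 0 ∨
      (((T.filter fun a => ¬ ¬ x.adj a β).card : ℕ) : ℝ) * ((x.w2 : ℝ) / x.D) ≤
        A / x.D - x.p / x.D + 1 / x.D := by
    rcases Finset.eq_empty_or_nonempty (T.filter fun a => ¬ ¬ x.adj a β) with h | h
    · left
      rw [h]
      simp
    · right
      exact hKD _ (hadj h)
  have hl3 : (ln x.st β : ℝ) / x.D ≤ (x.w1 : ℝ) / x.D + x.η * x.θ * x.μ := by
    have h : (ln x.st β : ℝ) ≤ x.w1 + x.M := by exact_mod_cast hl2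
    have : (ln x.st β : ℝ) / x.D ≤ ((x.w1 : ℝ) + x.M) / x.D :=
      div_le_div_of_nonneg_right h hD0.le
    rw [add_div] at this
    linarith
  have hl4 : (ln x.st β : ℝ) / x.D ≤ x.μ + (1 / 4 + 2 * x.η) * (x.θ * x.μ) := by
    linarith
  by_cases hc1 : n + x.Kh < x.b0
  · have hX := nonadj (l := (ln x.st β : ℝ) / x.D) (κ := 3 / 20 + x.η) hθ0 hμ (by positivity)
      (by rw [hl1 hc1]; linarith) hk1 hm1 hx.j1 (Nat.cast_nonneg _) hN1
    have hA := hA1 hc1
    have e1 : A / x.D - x.p / x.D + 1 / x.D = (x.K : ℝ) * (x.v / x.D) - x.p / x.D -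
        n * (x.v / x.D - x.w2 / x.D) + 1 / x.D := by
      rw [hA]
      ring
    rw [e1] at hCdic
    rw [hl1 hc1] at hX ⊢
    exact num1 hη0 hη hθ0 hμ hs2 hs3 hX hn0 hy hCdic hKc ha3 hd
  · push Not at hc1
    have hX := nonadj (l := (ln x.st β : ℝ) / x.D) (κ := 1 / 4 + 2 * x.η) hθ0 hμ (by positivity)
      (by linarith) hk1 hm1 hx.j1 (Nat.cast_nonneg _) hN1
    by_cases hc2 : n ≤ x.K
    · have hA := hA2 hc1 hc2
      have e1 : A / x.D - x.p / x.D + 1 / x.D = (x.K : ℝ) * (x.v / x.D) - x.p / x.D -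
          n * (x.v / x.D - x.w1 / x.D) - ((x.b0 : ℝ) - x.Kh) * (x.w1 / x.D - x.w2 / x.D) +
            1 / x.D := by
        rw [hA]
        ring
      rw [e1] at hCdic
      have hmn : (x.b0 : ℝ) - x.Kh ≤ n := by
        have : (x.b0 : ℝ) ≤ n + x.Kh := by exact_mod_cast hc1
        linarith
      have hj0 : 0 ≤ (x.J : ℝ) * x.μ := by positivity
      exact num2 hη0 hη hθ0 hθ hμ hs1 hs2 hs3 hX hl4 hC0 hmn
        (by rw [hb0]; nlinarith) (by rw [hb0]; nlinarith [hx.j1]) hy hCdic hKc ha3 hd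
    · push Not at hc2
      have hA := hA3 hc2
      refine num3 (a2 := (x.w2 : ℝ) / x.D) hη0 hη hθ0 hθ hμ hs2 hX hl4 hC0 hn0 hy ?_ hd
      rcases hCdic with h | h
      · exact Or.inl h
      · right
        have hk2 := (abs_le.mp hx.k2).2
        have hA' : A / x.D - x.p / x.D ≤
            ((x.Kh : ℝ) * x.w1 + (x.K - x.Kh) * x.w2 - x.p) / x.D := by
          rw [sub_div]
          have := div_le_div_of_nonneg_right hA hD0.le
          linarith
        linarith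

theorem g_gt {x : Prm} (hx : Par x) : x.J < x.g ∧ x.K ≤ x.M ∧ 2 * x.K ≤ x.b1 ∧ 2 ≤ x.p := by
  have hη := eta_le hx
  have hη0 := hx.n1
  have hθ0 := hx.t0
  have hθ := hx.th
  have hμ := hx.m0
  have hθμ : 0 < x.θ * x.μ := mul_pos hθ0 hμ
  obtain ⟨s3a, s3b⟩ := abs_le.mp hx.s3
  obtain ⟨k1a, k1b⟩ := abs_le.mp hx.k1
  obtain ⟨m1a, m1b⟩ := abs_le.mp hx.m1
  have hj := (abs_le.mp hx.j2).2
  have hj1 := hx.j1
  have hg1 : (x.g : ℝ) ≤ x.K := by exact_mod_cast hx.g1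
  have hv : x.μ ≤ (x.v : ℝ) / x.D := by
    have : x.η * x.θ * x.μ ≤ 1 / 10 ^ 5 * (x.θ * x.μ) := by
      rw [mul_assoc]
      exact mul_le_mul_of_nonneg_right hη hθμ.le
    linarith
  have h1 : ((x.K : ℝ) - x.g) * x.μ ≤ ((x.K : ℝ) - x.g) * (x.v / x.D) :=
    mul_le_mul_of_nonneg_left hv (by linarith)
  have h2 : x.η * x.θ ≤ x.θ := by nlinarith
  have hMK : 2 * x.K ≤ x.b1 := by
    have hb : (x.b1 : ℝ) = x.K + x.J + x.M := by
      simp only [Prm.b1]
      push_cast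
      ring
    by_contra hc
    push Not at hc
    have h3 : (x.b1 : ℝ) < 2 * x.K := by exact_mod_cast hc
    rw [hb] at h3
    have h4 : (x.M : ℝ) < x.K := by
      have : (0 : ℝ) ≤ x.J := Nat.cast_nonneg _
      linarith
    have h5 := mul_lt_mul_of_pos_right h4 hμ
    linarith
  refine ⟨?_, ?_, hMK, ?_⟩
  · by_contra hc
    push Not at hc
    have h3 : (x.g : ℝ) ≤ x.J := by exact_mod_cast hc
    have h4 := mul_le_mul_of_nonneg_right h3 hμ.le
    nlinarith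
  · by_contra hc
    push Not at hc
    have h4 : (x.M : ℝ) < x.K := by exact_mod_cast hc
    have h5 := mul_lt_mul_of_pos_right h4 hμ
    linarith
  · have := hx.g3
    omega

theorem t_CTO (hBLK : S_BLK) (hAVA : S_AVA) (hCLD : S_CLD) : S_CTO := by
  intro x hx β hβ hmid
  have hb1 := b1_eq x
  have hB := B_eq x
  have hBr : (x.B : ℝ) = x.b1 + x.b0 := by exact_mod_cast hB
  have hb1r : (x.b1 : ℝ) = x.b0 + x.M := by exact_mod_cast hb1
  obtain ⟨hJg, hKM, h2K, hp2⟩ := g_gt hx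
  have hKJ := hx.KJ
  have hKh := Kh_lt hx
  have hKhK := hx.KhK
  have hKW := hx.KW
  have hb0 : x.b0 = x.K + x.J := rfl
  have hw12 : (x.w2 : ℝ) ≤ x.w1 := by exact_mod_cast hx.w12.le
  obtain ⟨hst0, hstB, hmon, -, hlA, hlB, hlC, hlD, hlE, hlF, hln⟩ := hBLK x hx
  have hmem : ∀ a ∈ x.R, x.K + 1 ≤ a ∧ a + x.K + 1 ≤ x.B := by
    intro a ha
    obtain ⟨h1, h2⟩ := Finset.mem_Icc.mp ha
    exact ⟨h1, by omega⟩
  have hZ := Z0_real hx
  have hmid' : β < x.b0 ∨ x.b1 ≤ β := by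
    by_contra hc
    exact hmid (Finset.mem_Ico.mpr ⟨by omega, by omega⟩)
  have hpos : ∀ a ∈ x.R, β ∈ x.cls a →
      (β < x.b0 → β < a ∧ x.st (β + 1) + x.p ≤ x.st a + 1) ∧
      (x.b1 ≤ β → a < β ∧ x.st (a + 1) + x.p ≤ x.st β + 1) := by
    intro a ha hc
    have hav := (((hCLD x hx a ha).1 β).mp hc).2.1
    obtain ⟨-, -, -, h4, h5, -⟩ := hAVA x hx a ha β hβ
    obtain ⟨h6, h7⟩ := hmem a ha
    constructor
    · intro h
      have h8 : β < a := by
        by_contra hcc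
        have := h4 (by omega) hav
        omega
      refine ⟨h8, ?_⟩
      rcases hav with h9 | h9
      · have := st_mono hx hBLK (show β ≤ a + 1 by omega)
        omega
      · exact h9
    · intro h
      have h8 : a < β := by
        by_contra hcc
        have := h5 (by omega) hav
        omega
      refine ⟨h8, ?_⟩
      rcases hav with h9 | h9
      · exact h9
      · have := st_mono hx hBLK (show a ≤ β + 1 by omega)
        omega
  set T := x.R.filter (fun a => β ∈ x.cls a) with hT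
  rcases hmid' with h | h
  · -- bottom
    have hnr : ((x.b0 - 1 - β : ℕ) : ℝ) = (x.b0 : ℝ) - 1 - β := by
      rw [Nat.cast_sub (by omega), Nat.cast_sub (by omega)]
      norm_num
    refine aux hx hCLD (n := x.b0 - 1 - β) (by omega) (fun h1 => hlB β (by omega) h) ?_ ?_
      ((x.st (β + x.K + 1) : ℝ) - x.st (β + 1)) ?_ ?_ ?_ ?_
    · by_cases h1 : β < x.Kh
      · rw [hlA β h1]
        omega
      · rw [hlB β (by omega) h]
        have := hx.w12
        omega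
    · change (T.filter fun a => ¬ x.adj a β).card + 2 * x.K ≤ _
      have hsub : T.filter (fun a => ¬ x.adj a β) ⊆
          Finset.Ico (β + x.K + 1) (x.B - x.K) := by
        intro a ha
        obtain ⟨haT, hna⟩ := Finset.mem_filter.mp ha
        obtain ⟨haR, hac⟩ := Finset.mem_filter.mp haT
        obtain ⟨h1, h2⟩ := hmem a haR
        have h3 := ((hpos a haR hac).1 h).1
        refine Finset.mem_Ico.mpr ⟨?_, by omega⟩
        by_contra hc
        exact hna ⟨by omega, by omega⟩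
      have := Finset.card_le_card hsub
      rw [Nat.card_Ico] at this
      omega
    · intro h1
      rw [hnr, st_c hx (i := β + x.K + 1) (by omega) (by omega),
        st_b (i := β + 1) (by omega) (by omega), hZ]
      push_cast
      ring
    · intro h1 h2
      rw [hnr, st_c hx (i := β + x.K + 1) (by omega) (by omega),
        st_a (i := β + 1) (by omega), hZ]
      push_cast
      ring
    · intro h1
      rw [st_b (i := β + x.K + 1) (by omega) (by omega), st_a (i := β + 1) (by omega)]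
      have h3 : (0 : ℝ) ≤ (β : ℝ) + 1 := by positivity
      push_cast
      nlinarith
    · intro hne
      obtain ⟨a, ha, hmin⟩ := Finset.exists_min_image _ (fun i => i) hne
      have hprop : ∀ a ∈ T.filter (fun a => ¬ ¬ x.adj a β),
          a ∈ x.R ∧ β ∈ x.cls a ∧ x.adj a β := by
        intro a ha
        obtain ⟨haT, hna⟩ := Finset.mem_filter.mp ha
        obtain ⟨haR, hac⟩ := Finset.mem_filter.mp haT
        exact ⟨haR, hac, not_not.mp hna⟩
      obtain ⟨haR, hac, had⟩ := hprop a ha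
      obtain ⟨h1, h2⟩ := (hpos a haR hac).1 h
      have hsub : T.filter (fun a => ¬ ¬ x.adj a β) ⊆ Finset.Ico a (β + x.K + 1) := by
        intro b hb
        obtain ⟨_, _, hbd⟩ := hprop b hb
        have := hbd.2
        exact Finset.mem_Ico.mpr ⟨hmin b hb, by omega⟩
      have hcard := Finset.card_le_card hsub
      rw [Nat.card_Ico] at hcard
      have had2 := had.2
      have hcr : (((T.filter fun a => ¬ ¬ x.adj a β).card : ℕ) : ℝ) ≤
          ((β + x.K + 1 : ℕ) : ℝ) - a := by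
        have : (T.filter fun a => ¬ ¬ x.adj a β).card + a ≤ β + x.K + 1 := by omega
        have : (((T.filter fun a => ¬ ¬ x.adj a β).card : ℕ) : ℝ) + a ≤
            ((β + x.K + 1 : ℕ) : ℝ) := by exact_mod_cast this
        linarith
      have h3 := st_grow hx hBLK (i := a) (j := β + x.K + 1) (by omega) (by omega)
      have h4 : (x.st (β + 1) : ℝ) + x.p ≤ x.st a + 1 := by exact_mod_cast h2
      have h5 := mul_le_mul_of_nonneg_right hcr (Nat.cast_nonneg (α := ℝ) x.w2)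
      linarith
  · -- top
    have hnr : ((β - x.b1 : ℕ) : ℝ) = (β : ℝ) - x.b1 := by
      rw [Nat.cast_sub h]
    refine aux hx hCLD (n := β - x.b1) (by omega) (fun h1 => hlD β h (by omega)) ?_ ?_
      ((x.st β : ℝ) - x.st (β - x.K)) ?_ ?_ ?_ ?_
    · by_cases h1 : β + x.Kh < x.B
      · rw [hlD β h h1]
        have := hx.w12
        omega
      · by_cases h2 : β + 1 < x.B
        · rw [hlE β (by omega) h2]
          omega
        · exact (hlF β (by omega)).2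
    · change (T.filter fun a => ¬ x.adj a β).card + 2 * x.K ≤ _
      have hsub : T.filter (fun a => ¬ x.adj a β) ⊆
          Finset.Ico (x.K + 1) (β - x.K) := by
        intro a ha
        obtain ⟨haT, hna⟩ := Finset.mem_filter.mp ha
        obtain ⟨haR, hac⟩ := Finset.mem_filter.mp haT
        obtain ⟨h1, h2⟩ := hmem a haR
        have h3 := ((hpos a haR hac).2 h).1
        refine Finset.mem_Ico.mpr ⟨h1, ?_⟩
        by_contra hc
        exact hna ⟨by omega, by omega⟩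
      have := Finset.card_le_card hsub
      rw [Nat.card_Ico] at this
      omega
    · intro h1
      rw [hnr, st_d hx (i := β) h (by omega), st_c hx (i := β - x.K) (by omega) (by omega),
        Nat.cast_sub (show x.K ≤ β by omega), hb1r]
      ring
    · intro h1 h2
      rw [hnr, st_e hx (i := β) (by omega) hβ, st_c hx (i := β - x.K) (by omega) (by omega),
        Nat.cast_sub (show x.K ≤ β by omega), hBr, hb1r]
      ring
    · intro h1
      rw [st_e hx (i := β) (by omega) hβ, st_d hx (i := β - x.K) (by omega) (by omega),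
        Nat.cast_sub (show x.K ≤ β by omega), hBr, hb1r]
      have h3 : (0 : ℝ) ≤ (x.b0 : ℝ) + x.M + x.b0 - β := by
        have : (β : ℝ) ≤ x.B := by exact_mod_cast hβ.le
        rw [hBr, hb1r] at this
        linarith
      nlinarith
    · intro hne
      obtain ⟨a, ha, hmax⟩ := Finset.exists_max_image _ (fun i => i) hne
      have hprop : ∀ a ∈ T.filter (fun a => ¬ ¬ x.adj a β),
          a ∈ x.R ∧ β ∈ x.cls a ∧ x.adj a β := by
        intro a ha
        obtain ⟨haT, hna⟩ := Finset.mem_filter.mp ha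
        obtain ⟨haR, hac⟩ := Finset.mem_filter.mp haT
        exact ⟨haR, hac, not_not.mp hna⟩
      obtain ⟨haR, hac, had⟩ := hprop a ha
      obtain ⟨h1, h2⟩ := (hpos a haR hac).2 h
      have hsub : T.filter (fun a => ¬ ¬ x.adj a β) ⊆ Finset.Ico (β - x.K) (a + 1) := by
        intro b hb
        obtain ⟨_, _, hbd⟩ := hprop b hb
        have := hbd.1
        have := hmax b hb
        exact Finset.mem_Ico.mpr ⟨by omega, by omega⟩
      have hcard := Finset.card_le_card hsub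
      rw [Nat.card_Ico] at hcard
      have had1 := had.1
      have hcr : (((T.filter fun a => ¬ ¬ x.adj a β).card : ℕ) : ℝ) ≤
          ((a + 1 : ℕ) : ℝ) - ((β - x.K : ℕ) : ℝ) := by
        have : (T.filter fun a => ¬ ¬ x.adj a β).card + (β - x.K) ≤ a + 1 := by omega
        have : (((T.filter fun a => ¬ ¬ x.adj a β).card : ℕ) : ℝ) + ((β - x.K : ℕ) : ℝ) ≤
            ((a + 1 : ℕ) : ℝ) := by exact_mod_cast this
        linarith
      have h3 := st_grow hx hBLK (i := β - x.K) (j := a + 1) (by omega) (by omega)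
      have h4 : (x.st (a + 1) : ℝ) + x.p ≤ x.st β + 1 := by exact_mod_cast h2
      have h5 := mul_le_mul_of_nonneg_right hcr (Nat.cast_nonneg (α := ℝ) x.w2)
      linarith

end Pool.Agent.H18.HX.Cto
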