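import Pool.Agent.H65.HX.SStm
import Pool.Agent.H60.HW.SPat

/-!
Part sPAT of project HX, scheme side: the weights of the parts on the pattern (adapted from
`Pool/Agent/H60/HW/SPat.lean`).
-/

set_option autoImplicit false
open Classical Finset

namespace Pool.Agent.H18.HX

open Pool.Agent.H65.HX
open Pool.Agent.H65.HX.Sc hiding TT
open Pool.Agent.H60.HW (TT ZZ card_TT card_ZZ sdiff_single mem_TT sum_one sum_two sum_split
  sum_mul_range row_other row_same)

theorem resv_iff (x : Prm) (P i : ℕ) : x.resv P i ↔ P ∈ ZZ x.h i := by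
  unfold Prm.resv ZZ
  split_ifs with h
  · simp only [mem_insert, mem_singleton, h, true_and]
    constructor
    · rintro (h1 | h1)
      · rcases h1 with h1 | h1
        · exact Or.inl h1.symm
        · exact Or.inr h1.symm
      · omega
    · rintro (h1 | h1)
      · exact Or.inl (Or.inl h1.symm)
      · exact Or.inl (Or.inr h1.symm)
  · simp only [mem_singleton, h, false_and, false_or]
    omega

theorem nn_eq (x : Prm) (τ : Bool) (i : ℕ) : x.nn τ i = (TT x.h τ \ ZZ x.h i).card := by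
  unfold Prm.nn TT
  congr 1
  ext P
  simp only [mem_filter, mem_sdiff, mem_range, resv_iff, Prm.tp]
  tauto

theorem nn_ge (x : Prm) (τ : Bool) (i : ℕ) : x.h ≤ x.nn τ i + 2 := by
  rw [nn_eq]
  have h1 := card_TT x.h τ
  have h2 := card_ZZ x.h i
  have h3 := Finset.le_card_sdiff (ZZ x.h i) (TT x.h τ)
  omega

theorem nn_le (x : Prm) (τ : Bool) (i : ℕ) : x.nn τ i ≤ x.h := by
  rw [nn_eq]
  exact (card_le_card sdiff_subset).trans_eq (card_TT x.h τ)

theorem wt_eq (x : Prm) (P i : ℕ) :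
    x.wt P i = if P ∈ ZZ x.h i then 0 else (x.h : ℝ) / (TT x.h (x.tp P) \ ZZ x.h i).card := by
  unfold Prm.wt
  rw [nn_eq]
  by_cases h : P ∈ ZZ x.h i
  · rw [if_pos h, if_pos ((resv_iff x P i).mpr h)]
  · rw [if_neg h, if_neg (fun h' => h ((resv_iff x P i).mp h'))]

theorem half (h P : ℕ) (hh : 3 ≤ h) (σ τ : Bool) (hτ : P ∈ TT h τ) :
    ∑ j ∈ TT h σ, (if P = j then (0 : ℝ) else (h : ℝ) / (TT h τ \ {j}).card) = h := by
  have hh' : (3 : ℝ) ≤ (h : ℝ) := by exact_mod_cast hh
  by_cases hs : σ = τ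
  · subst hs
    have e1 : ∑ j ∈ TT h σ, (if P = j then (0 : ℝ) else (h : ℝ) / (TT h σ \ {j}).card) =
        (((TT h σ).card : ℝ) - 1) * ((h : ℝ) / ((h : ℝ) - 1)) := by
      refine sum_one _ P hτ _ _ (by rw [if_pos rfl]) ?_
      intro j hj hjP
      rw [if_neg (fun h' => hjP h'.symm),
        Finset.card_sdiff_of_subset (Finset.singleton_subset_iff.mpr hj),
        card_singleton, card_TT, Nat.cast_sub (by omega), Nat.cast_one]
    rw [e1, card_TT, mul_div_cancel₀]
    have : (0 : ℝ) < (h : ℝ) - 1 := by linarith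
    exact this.ne'
  · have h2 : ∀ j ∈ TT h σ, (if P = j then (0 : ℝ) else (h : ℝ) / (TT h τ \ {j}).card) = 1 := by
      intro j hj
      have hj2 : j ∉ TT h τ := by
        intro hj'
        simp only [TT, mem_filter] at hj hj'
        exact hs (hj.2.symm.trans hj'.2)
      rw [if_neg (fun h' : P = j => hj2 (h' ▸ hτ)), sdiff_single _ _ hj2, card_TT,
        div_self (by linarith)]
    rw [Finset.sum_congr rfl h2, Finset.sum_const, card_TT, nsmul_eq_mul, mul_one]

theorem h_large (x : Prm) (hx : Par x) : 1000 ≤ x.h := hx.h1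

theorem t_PAT : S_PAT := by
  intro x hx P hP
  have hh := h_large x hx
  have hh' : (1000 : ℝ) ≤ (x.h : ℝ) := by exact_mod_cast hh
  have hPT : P ∈ TT x.h (x.tp P) := by
    rw [mem_TT x.h P hP]
    rfl
  -- positions after the square
  have hZ : ∀ j, x.wt P (4 * x.h ^ 2 + j) =
      if P = j then (0 : ℝ) else (x.h : ℝ) / (TT x.h (x.tp P) \ {j}).card := by
    intro j
    have h1 : ZZ x.h (4 * x.h ^ 2 + j) = {j} := by
      unfold ZZ
      rw [if_neg (by omega)]
      congr 1
      omega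
    rw [wt_eq, h1]
    simp only [mem_singleton]
  have hTt : TT x.h true = range x.h := by
    ext j
    simp only [TT, mem_filter, mem_range, decide_eq_true_eq]
    omega
  have hTf : TT x.h false = Finset.Ico x.h (2 * x.h) := by
    ext j
    simp only [TT, mem_filter, mem_range, decide_eq_false_iff_not, Finset.mem_Ico]
    omega
  have hsec1 : ∑ i ∈ Finset.Ico (4 * x.h ^ 2) (4 * x.h ^ 2 + x.h), x.wt P i = x.h := by
    rw [Finset.sum_Ico_eq_sum_range]
    have e1 : 4 * x.h ^ 2 + x.h - 4 * x.h ^ 2 = x.h := by omega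
    rw [e1, ← hTt]
    rw [← half x.h P (by omega) true (x.tp P) hPT]
    exact Finset.sum_congr rfl fun j _ => hZ j
  have hsec2 : ∑ i ∈ Finset.Ico (4 * x.h ^ 2 + x.h) (4 * x.h ^ 2 + 2 * x.h), x.wt P i = x.h := by
    have e1 : ∑ i ∈ Finset.Ico (4 * x.h ^ 2 + x.h) (4 * x.h ^ 2 + 2 * x.h), x.wt P i =
        ∑ j ∈ Finset.Ico x.h (2 * x.h), x.wt P (4 * x.h ^ 2 + j) := by
      rw [Finset.sum_Ico_add, add_comm x.h, add_comm (2 * x.h)]
    rw [e1, ← hTf]
    rw [← half x.h P (by omega) false (x.tp P) hPT]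
    exact Finset.sum_congr rfl fun j _ => hZ j
  have hsecond : ∑ i ∈ Finset.Ico (4 * x.h ^ 2) (4 * x.h ^ 2 + 2 * x.h), x.wt P i = 2 * x.h := by
    rw [← Finset.sum_Ico_consecutive _ (show 4 * x.h ^ 2 ≤ 4 * x.h ^ 2 + x.h by omega)
      (show 4 * x.h ^ 2 + x.h ≤ 4 * x.h ^ 2 + 2 * x.h by omega), hsec1, hsec2]
    ring
  have hfirst : ∑ i ∈ range (4 * x.h ^ 2), x.wt P i = 4 * (x.h : ℝ) ^ 2 := by
    have e1 : 4 * x.h ^ 2 = 2 * x.h * (2 * x.h) := by ring
    rw [e1, sum_mul_range]
    have e2 : ∀ A ∈ range (2 * x.h), ∀ B ∈ range (2 * x.h), x.wt P (2 * x.h * A + B) =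
        if P = A ∨ P = B then 0 else (x.h : ℝ) / (TT x.h (x.tp P) \ {A, B}).card := by
      intro A hA B hB
      rw [mem_range] at hA hB
      have h1 : ZZ x.h (2 * x.h * A + B) = {A, B} := by
        unfold ZZ
        have h2 : 2 * x.h * A + B < 4 * x.h ^ 2 := by
          rw [e1]
          calc 2 * x.h * A + B < 2 * x.h * A + 2 * x.h := by omega
            _ = 2 * x.h * (A + 1) := by ring
            _ ≤ 2 * x.h * (2 * x.h) := Nat.mul_le_mul_left _ (by omega)
        rw [if_pos h2, Nat.mul_add_div (by omega), Nat.div_eq_of_lt hB, add_zero,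
          Nat.mul_add_mod, Nat.mod_eq_of_lt hB]
      rw [wt_eq, h1]
      simp only [mem_insert, mem_singleton]
    rw [Finset.sum_congr rfl fun A hA => Finset.sum_congr rfl fun B hB => e2 A hA B hB]
    rw [sum_split x.h (x.tp P)]
    have e3 : ∑ A ∈ TT x.h (x.tp P), ∑ B ∈ range (2 * x.h),
        (if P = A ∨ P = B then 0 else (x.h : ℝ) / (TT x.h (x.tp P) \ {A, B}).card) =
        (((TT x.h (x.tp P)).card : ℝ) - 1) * (2 * x.h ^ 2 / (x.h - 1)) := by
      refine sum_one _ P hPT _ _ ?_ ?_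
      · exact Finset.sum_eq_zero fun B _ => by rw [if_pos (Or.inl rfl)]
      · intro A hA hAP
        rw [← row_same x.h P A (by omega) (x.tp P) hPT hA hAP]
        refine Finset.sum_congr rfl fun B _ => ?_
        have : P ≠ A := fun h' => hAP h'.symm
        simp only [this, false_or]
    have e4 : ∑ A ∈ TT x.h (!x.tp P), ∑ B ∈ range (2 * x.h),
        (if P = A ∨ P = B then 0 else (x.h : ℝ) / (TT x.h (x.tp P) \ {A, B}).card) =
        x.h * (2 * x.h) := by
      have h2 : ∀ A ∈ TT x.h (!x.tp P), ∑ B ∈ range (2 * x.h),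
          (if P = A ∨ P = B then 0 else (x.h : ℝ) / (TT x.h (x.tp P) \ {A, B}).card) =
          2 * x.h := by
        intro A hA
        have hA2 : A ∉ TT x.h (x.tp P) := by
          intro hA'
          simp only [TT, mem_filter] at hA hA'
          rw [hA'.2] at hA
          cases x.tp P <;> simp at hA
        rw [← row_other x.h P (by omega) hP (x.tp P) hPT]
        refine Finset.sum_congr rfl fun B _ => ?_
        have h3 : TT x.h (x.tp P) \ {A, B} = TT x.h (x.tp P) \ {B} := by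
          ext z
          simp only [mem_sdiff, mem_insert, mem_singleton, not_or]
          constructor
          · rintro ⟨h4, -, h5⟩
            exact ⟨h4, h5⟩
          · rintro ⟨h4, h5⟩
            exact ⟨h4, fun h6 => hA2 (h6 ▸ h4), h5⟩
        have : P ≠ A := fun h' => hA2 (h' ▸ hPT)
        simp only [this, false_or, h3]
      rw [Finset.sum_congr rfl h2, Finset.sum_const, card_TT, nsmul_eq_mul]
    rw [e3, e4, card_TT]
    have h1 : (x.h : ℝ) - 1 ≠ 0 := by
      have : (0 : ℝ) < (x.h : ℝ) - 1 := by linarith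
      exact this.ne'
    field_simp
    ring
  have hthird : ∑ i ∈ Finset.Ico (4 * x.h ^ 2 + 2 * x.h) x.L, x.wt P i =
      (x.L : ℝ) - (4 * (x.h : ℝ) ^ 2 + 2 * x.h) := by
    have h1 : ∀ i ∈ Finset.Ico (4 * x.h ^ 2 + 2 * x.h) x.L, x.wt P i = 1 := by
      intro i hi
      rw [Finset.mem_Ico] at hi
      have h2 : ZZ x.h i = {i - 4 * x.h ^ 2} := by
        unfold ZZ
        rw [if_neg (by omega)]
      have h3 : ∀ τ, i - 4 * x.h ^ 2 ∉ TT x.h τ := by
        intro τ h4
        simp only [TT, mem_filter, mem_range] at h4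
        omega
      rw [wt_eq, h2, if_neg (by rw [mem_singleton]; omega),
        sdiff_single _ _ (h3 _), card_TT, div_self (by linarith)]
    rw [Finset.sum_congr rfl h1, Finset.sum_const, Nat.card_Ico, nsmul_eq_mul, mul_one]
    have h2 : 4 * x.h ^ 2 + 2 * x.h ≤ x.L := by
      rw [hx.L1]
      nlinarith [Nat.zero_le (x.h ^ 2)]
    rw [Nat.cast_sub h2]
    push_cast
    ring
  have hnn : ∀ τ i, 0 < x.nn τ i := by
    intro τ i
    have := nn_ge x τ i
    omega
  refine ⟨?_, ?_, ?_, hsec1, hsec2, ?_⟩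
  · intro i
    unfold Prm.wt
    by_cases hr : x.resv P i
    · rw [if_pos hr]
      exact ⟨le_refl _, by positivity⟩
    · rw [if_neg hr]
      refine ⟨by positivity, ?_⟩
      have h1 : (x.h : ℝ) ≤ (x.nn (x.tp P) i : ℝ) + 2 := by exact_mod_cast nn_ge x (x.tp P) i
      have h2 : (0 : ℝ) < (x.nn (x.tp P) i : ℝ) := by exact_mod_cast hnn _ i
      have h3 : (0 : ℝ) < (x.h : ℝ) := by linarith
      have h4 : 1 + 3 / (x.h : ℝ) = ((x.h : ℝ) + 3) / x.h := by
        field_simp
      rw [h4, div_le_div_iff₀ h2 h3]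
      nlinarith
  · intro i hr
    unfold Prm.wt
    rw [if_neg hr]
    have h2 : (0 : ℝ) < (x.nn (x.tp P) i : ℝ) := by exact_mod_cast hnn _ i
    rw [le_div_iff₀ h2, one_mul]
    exact_mod_cast nn_le x (x.tp P) i
  · have h1 : 4 * x.h ^ 2 + 2 * x.h ≤ x.L := by
      rw [hx.L1]
      nlinarith [Nat.zero_le (x.h ^ 2)]
    rw [Finset.range_eq_Ico, ← Finset.sum_Ico_consecutive _ (Nat.zero_le (4 * x.h ^ 2)) (by omega),
      ← Finset.sum_Ico_consecutive _ (show 4 * x.h ^ 2 ≤ 4 * x.h ^ 2 + 2 * x.h by omega) h1,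
      ← Finset.range_eq_Ico, hfirst, hsecond, hthird]
    ring
  · intro τ i
    have e0 : (range (2 * x.h)).filter (fun Q => x.tp Q = τ) = TT x.h τ := rfl
    rw [e0]
    have e1 : ∀ Q ∈ TT x.h τ, x.wt Q i =
        if Q ∉ ZZ x.h i then (x.h : ℝ) / (TT x.h τ \ ZZ x.h i).card else 0 := by
      intro Q hQ
      have h1 : x.tp Q = τ := by
        simp only [TT, mem_filter] at hQ
        exact hQ.2
      rw [wt_eq, h1]
      by_cases h2 : Q ∈ ZZ x.h i
      · rw [if_pos h2, if_neg (fun h3 => h3 h2)]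
      · rw [if_neg h2, if_pos h2]
    rw [Finset.sum_congr rfl e1, ← Finset.sum_filter]
    have e2 : (TT x.h τ).filter (fun Q => Q ∉ ZZ x.h i) = TT x.h τ \ ZZ x.h i := by
      ext Q
      simp only [mem_filter, mem_sdiff]
    rw [e2, Finset.sum_const, nsmul_eq_mul, ← nn_eq]
    have h2 : (0 : ℝ) < (x.nn τ i : ℝ) := by exact_mod_cast hnn _ i
    field_simp

end Pool.Agent.H18.HX
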